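import Pool.Agent.R161.GR.Defs

/-!
# Piece GR-CUT of MP_57d9fd_an: cut off functions with derivative bounds `C / ε ^ j`
-/

open scoped ContDiff Matrix Matrix.Norms.Elementwise
open Filter

namespace Pool.Agent.R748.GR

open Pool.Agent.R161.GR

section
variable {E : Type*} [NormedAddCommGroup E] [NormedSpace ℝ E]

/-- scaling and translating a function with bounded derivatives -/
theorem scale_bound (φ : E → ℂ) (hφ : ContDiff ℝ ∞ φ) (j : ℕ) (A : ℝ)
    (hA : ∀ x, ‖iteratedFDeriv ℝ j φ x‖ ≤ A) (P : E) (ε : ℝ) (hε : 0 < ε) (x : E) :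
    ‖iteratedFDeriv ℝ j (fun z => φ (ε⁻¹ • (z - P))) x‖ ≤ A / ε ^ j := by
  let g : E →L[ℝ] E := ε⁻¹ • ContinuousLinearMap.id ℝ E
  have h1 : iteratedFDeriv ℝ j (fun z => φ (ε⁻¹ • (z - P))) x =
      iteratedFDeriv ℝ j (φ ∘ g) (x - P) := by
    have := iteratedFDeriv_comp_sub (𝕜 := ℝ) (f := φ ∘ g) j P x
    rw [← this]
    rfl
  rw [h1, g.iteratedFDeriv_comp_right hφ (x - P) (i := j) (by exact_mod_cast le_top)]
  have hg : ‖g‖ ≤ ε⁻¹ := by
    have h0 : ‖g‖ = ‖ε⁻¹‖ * ‖ContinuousLinearMap.id ℝ E‖ := norm_smul _ _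
    rw [h0, Real.norm_eq_abs, abs_of_pos (inv_pos.mpr hε)]
    exact mul_le_of_le_one_right (inv_pos.mpr hε).le ContinuousLinearMap.norm_id_le
  refine (ContinuousMultilinearMap.norm_compContinuousLinearMap_le _ _).trans ?_
  have h2 : ∏ _i : Fin j, ‖g‖ ≤ (ε ^ j)⁻¹ := by
    rw [Finset.prod_const, Finset.card_univ, Fintype.card_fin, ← inv_pow]
    exact pow_le_pow_left₀ (norm_nonneg _) hg j
  have hA0 : 0 ≤ A := (norm_nonneg _).trans (hA x)
  rw [div_eq_mul_inv]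
  exact mul_le_mul (hA _) h2 (Finset.prod_nonneg fun _ _ => norm_nonneg _) hA0

theorem mul_bound (N : ℕ) (f g : E → ℂ) (hf : ContDiff ℝ ∞ f) (hg : ContDiff ℝ ∞ g) (A B : ℝ)
    (hA : 0 ≤ A) (hB : 0 ≤ B) (ε : ℝ) (hε : 0 < ε)
    (hfb : ∀ j ≤ N, ∀ x, ‖iteratedFDeriv ℝ j f x‖ ≤ A / ε ^ j)
    (hgb : ∀ j ≤ N, ∀ x, ‖iteratedFDeriv ℝ j g x‖ ≤ B / ε ^ j) :
    ∀ j ≤ N, ∀ x, ‖iteratedFDeriv ℝ j (fun z => f z * g z) x‖ ≤ 2 ^ N * A * B / ε ^ j := by
  intro j hj x
  refine (norm_iteratedFDeriv_mul_le hf hg x (n := j) (by exact_mod_cast le_top)).trans ?_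
  have h1 : ∀ i ∈ Finset.range (j + 1),
      (j.choose i : ℝ) * ‖iteratedFDeriv ℝ i f x‖ * ‖iteratedFDeriv ℝ (j - i) g x‖
        ≤ (j.choose i : ℝ) * (A * B / ε ^ j) := by
    intro i hi
    have hi' : i ≤ j := Nat.lt_succ_iff.mp (Finset.mem_range.mp hi)
    have h2 := hfb i (hi'.trans hj) x
    have h3 := hgb (j - i) ((Nat.sub_le _ _).trans hj) x
    have h4 : A * B / ε ^ j = (A / ε ^ i) * (B / ε ^ (j - i)) := by
      rw [div_mul_div_comm, ← pow_add, Nat.add_sub_cancel' hi']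
    rw [h4, mul_assoc]
    refine mul_le_mul_of_nonneg_left ?_ (by positivity)
    exact mul_le_mul h2 h3 (norm_nonneg _) (by positivity)
  refine (Finset.sum_le_sum h1).trans ?_
  rw [← Finset.sum_mul]
  have h5 : (∑ i ∈ Finset.range (j + 1), (j.choose i : ℝ)) = 2 ^ j := by
    exact_mod_cast Nat.sum_range_choose j
  have h6 : 2 ^ N * A * B / ε ^ j = 2 ^ N * (A * B / ε ^ j) := by ring
  have h7 : (2 : ℝ) ^ j ≤ 2 ^ N := pow_le_pow_right₀ (by norm_num) hj
  have h8 : 0 ≤ A * B / ε ^ j := by positivity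
  rw [h5, h6]
  exact mul_le_mul_of_nonneg_right h7 h8

theorem cut_aux [FiniteDimensional ℝ E] (N : ℕ) (S : Set E) (hS : S.Finite) :
    ∃ C : ℝ, ∀ ε : ℝ, 0 < ε → ε ≤ 1 →
    ∃ χ : E → ℂ, ContDiff ℝ ∞ χ ∧ (∀ P ∈ S, ∀ᶠ x in nhds P, χ x = 1) ∧
    (∀ x, (∀ P ∈ S, ε ≤ ‖x - P‖) → ∀ᶠ z in nhds x, χ z = 0) ∧
    ∀ j ≤ N, ∀ x, ‖iteratedFDeriv ℝ j χ x‖ ≤ C / ε ^ j := by
  classical
  let b : ContDiffBump (0 : E) :=
    { rIn := 1 / 4, rOut := 1 / 2, rIn_pos := by norm_num, rIn_lt_rOut := by norm_num }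
  let φ : E → ℂ := fun x => ((1 - b x : ℝ) : ℂ)
  have hφ : ContDiff ℝ ∞ φ :=
    Complex.ofRealCLM.contDiff.comp (contDiff_const.sub b.contDiff)
  have hφ1 : ∀ x : E, 1 / 2 ≤ ‖x‖ → φ x = 1 := by
    intro x hx
    have : b x = 0 := b.zero_of_le_dist (by rw [dist_zero_right]; exact hx)
    simp only [φ, this, sub_zero, Complex.ofReal_one]
  have hφ0 : ∀ x : E, ‖x‖ ≤ 1 / 4 → φ x = 0 := by
    intro x hx
    have : b x = 1 := b.one_of_mem_closedBall (by
      rw [Metric.mem_closedBall, dist_zero_right]; exact hx)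
    simp only [φ, this, sub_self, Complex.ofReal_zero]
  -- bounds for the derivatives of φ
  have hbd : ∃ A : ℝ, 0 ≤ A ∧ ∀ j ≤ N, ∀ x, ‖iteratedFDeriv ℝ j φ x‖ ≤ A := by
    have h1 : ∀ j, ∃ A : ℝ, ∀ x, ‖iteratedFDeriv ℝ j φ x‖ ≤ A := by
      intro j
      -- φ - 1 has compact support
      let ψ : E → ℂ := fun x => ((b x : ℝ) : ℂ)
      have hψ : ContDiff ℝ ∞ ψ := Complex.ofRealCLM.contDiff.comp b.contDiff
      have hψs : HasCompactSupport ψ := by
        have : HasCompactSupport (b : E → ℝ) := b.hasCompactSupport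
        exact this.comp_left (g := fun t : ℝ => (t : ℂ)) Complex.ofReal_zero
      obtain ⟨A, hA⟩ := (hψ.continuous_iteratedFDeriv (m := j)
        (by exact_mod_cast le_top)).bounded_above_of_compact_support (hψs.iteratedFDeriv j)
      have h2 : φ = (fun _ => (1 : ℂ)) - ψ := by
        ext x
        simp [φ, ψ]
      have h3 : ∀ x, ‖iteratedFDeriv ℝ j (fun _ : E => (1 : ℂ)) x‖ ≤ 1 := by
        intro x
        rcases j with _ | j
        · rw [norm_iteratedFDeriv_zero]; simp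
        · rw [iteratedFDeriv_const_of_ne (Nat.succ_ne_zero j)]
          simp
      refine ⟨1 + A, fun x => ?_⟩
      rw [h2, iteratedFDeriv_sub_apply (by exact contDiff_const.contDiffAt)
        ((hψ.of_le (by exact_mod_cast le_top)).contDiffAt)]
      exact (norm_sub_le _ _).trans (add_le_add (h3 x) (hA x))
    choose A hA using h1
    refine ⟨∑ j ∈ Finset.range (N + 1), |A j|, Finset.sum_nonneg fun _ _ => abs_nonneg _, ?_⟩
    intro j hj x
    refine (hA j x).trans ((le_abs_self _).trans ?_)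
    exact Finset.single_le_sum (f := fun j => |A j|) (fun _ _ => abs_nonneg _)
      (Finset.mem_range.mpr (Nat.lt_succ_of_le hj))
  obtain ⟨A, hA0, hA⟩ := hbd
  -- products
  have hprod : ∀ T : Finset E, ∃ C : ℝ, 0 ≤ C ∧ ∀ ε : ℝ, 0 < ε → ε ≤ 1 → ∀ j ≤ N, ∀ x,
      ‖iteratedFDeriv ℝ j (fun z => ∏ P ∈ T, φ (ε⁻¹ • (z - P))) x‖ ≤ C / ε ^ j := by
    intro T
    induction T using Finset.induction_on with
    | empty =>
      refine ⟨1, zero_le_one, fun ε hε hε1 j hj x => ?_⟩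
      simp only [Finset.prod_empty]
      have h4 : (1 : ℝ) ≤ 1 / ε ^ j := by
        rw [le_div_iff₀ (by positivity), one_mul]
        exact pow_le_one₀ hε.le hε1
      refine le_trans ?_ h4
      rcases j with _ | j
      · rw [norm_iteratedFDeriv_zero]; simp
      · rw [iteratedFDeriv_const_of_ne (Nat.succ_ne_zero j)]
        simp
    | insert P T hP ih =>
      obtain ⟨C, hC0, hC⟩ := ih
      refine ⟨2 ^ N * A * C, by positivity, fun ε hε hε1 => ?_⟩
      have h5 : (fun z => ∏ P ∈ insert P T, φ (ε⁻¹ • (z - P))) =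
          fun z => φ (ε⁻¹ • (z - P)) * ∏ P ∈ T, φ (ε⁻¹ • (z - P)) := by
        ext z
        rw [Finset.prod_insert hP]
      rw [h5]
      have hsm : ∀ P : E, ContDiff ℝ ∞ (fun z : E => φ (ε⁻¹ • (z - P))) := fun P =>
        hφ.comp (contDiff_const.smul (contDiff_id.sub contDiff_const))
      exact mul_bound N _ _ (hsm P) (contDiff_prod fun Q _ => hsm Q) A C hA0 hC0 ε hε
        (fun j hj x => scale_bound φ hφ j A (hA j hj) P ε hε x) (hC ε hε hε1)
  obtain ⟨C, hC0, hC⟩ := hprod hS.toFinset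
  refine ⟨1 + C, fun ε hε hε1 => ?_⟩
  have hsm : ∀ P : E, ContDiff ℝ ∞ (fun z : E => φ (ε⁻¹ • (z - P))) := fun P =>
    hφ.comp (contDiff_const.smul (contDiff_id.sub contDiff_const))
  have hsp : ContDiff ℝ ∞ (fun z => ∏ P ∈ hS.toFinset, φ (ε⁻¹ • (z - P))) :=
    contDiff_prod fun Q _ => hsm Q
  have hnorm : ∀ z P : E, ‖ε⁻¹ • (z - P)‖ = ε⁻¹ * ‖z - P‖ := by
    intro z P
    rw [norm_smul, Real.norm_eq_abs, abs_of_pos (inv_pos.mpr hε)]
  refine ⟨fun z => 1 - ∏ P ∈ hS.toFinset, φ (ε⁻¹ • (z - P)), contDiff_const.sub hsp, ?_, ?_, ?_⟩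
  · intro P hP
    have h6 : ∀ᶠ z in nhds P, ‖z - P‖ < ε / 4 := by
      have : Tendsto (fun z : E => ‖z - P‖) (nhds P) (nhds 0) := by
        have h7 : Continuous (fun z : E => ‖z - P‖) := by fun_prop
        simpa using h7.tendsto P
      exact this.eventually (gt_mem_nhds (by positivity))
    filter_upwards [h6] with z hz
    rw [Finset.prod_eq_zero (hS.mem_toFinset.mpr hP), sub_zero]
    apply hφ0
    rw [hnorm, inv_mul_le_iff₀ hε]
    linarith
  · intro x hx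
    have h6 : ∀ᶠ z in nhds x, ‖z - x‖ < ε / 2 := by
      have : Tendsto (fun z : E => ‖z - x‖) (nhds x) (nhds 0) := by
        have h7 : Continuous (fun z : E => ‖z - x‖) := by fun_prop
        simpa using h7.tendsto x
      exact this.eventually (gt_mem_nhds (by positivity))
    filter_upwards [h6] with z hz
    rw [Finset.prod_eq_one, sub_self]
    intro P hP
    apply hφ1
    rw [hnorm, le_inv_mul_iff₀ hε]
    have h8 := hx P (hS.mem_toFinset.mp hP)
    have h9 : ‖x - P‖ ≤ ‖z - P‖ + ‖z - x‖ := by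
      have : x - P = (z - P) - (z - x) := by abel
      rw [this]; exact norm_sub_le _ _
    linarith
  · intro j hj x
    have h10 : (fun z => 1 - ∏ P ∈ hS.toFinset, φ (ε⁻¹ • (z - P))) =
        (fun _ => (1 : ℂ)) - fun z => ∏ P ∈ hS.toFinset, φ (ε⁻¹ • (z - P)) := rfl
    have h3 : ‖iteratedFDeriv ℝ j (fun _ : E => (1 : ℂ)) x‖ ≤ 1 := by
      rcases j with _ | j
      · rw [norm_iteratedFDeriv_zero]; simp
      · rw [iteratedFDeriv_const_of_ne (Nat.succ_ne_zero j)]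
        simp
    rw [h10, iteratedFDeriv_sub_apply (by exact contDiff_const.contDiffAt)
      ((hsp.of_le (by exact_mod_cast le_top)).contDiffAt)]
    refine (norm_sub_le _ _).trans ?_
    rw [add_div]
    refine add_le_add (h3.trans ?_) (hC ε hε hε1 j hj x)
    rw [le_div_iff₀ (by positivity), one_mul]
    exact pow_le_one₀ hε.le hε1

end

/-- (CUT) -/
theorem s_cut : S_cut := by
  intro n N S hS
  exact cut_aux N S hS

end Pool.Agent.R748.GR
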