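import Pool.Agent.R161.GR.Defs

/-!
# Piece GR-TAY of MP_57d9fd_an: Taylor bound for flat functions
-/

open scoped ContDiff Matrix Matrix.Norms.Elementwise
open Filter

namespace Pool.Agent.R748.GR

open Pool.Agent.R161.GR

theorem tay_aux {E F : Type*} [NormedAddCommGroup E] [NormedSpace ℝ E] [ProperSpace E]
    [NormedAddCommGroup F] [NormedSpace ℝ F] (N : ℕ) (P : E) (H : E → F) (hH : ContDiff ℝ ∞ H)
    (hv : ∀ j ≤ N, iteratedFDeriv ℝ j H P = 0) :
    ∃ M : ℝ, ∀ x, ‖x - P‖ ≤ 1 → ∀ j ≤ N, ‖iteratedFDeriv ℝ j H x‖ ≤ M * ‖x - P‖ ^ (N + 1 - j) := by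
  have hc : Continuous (fun x => ‖iteratedFDeriv ℝ (N + 1) H x‖) :=
    (hH.continuous_iteratedFDeriv (by exact_mod_cast le_top)).norm
  obtain ⟨M, hM⟩ := (isCompact_closedBall P 1).bddAbove_image hc.continuousOn
  have hM' : ∀ x, ‖x - P‖ ≤ 1 → ‖iteratedFDeriv ℝ (N + 1) H x‖ ≤ M := by
    intro x hx
    exact hM ⟨x, by rwa [Metric.mem_closedBall, dist_eq_norm], rfl⟩
  have hM0 : 0 ≤ M := (norm_nonneg _).trans (hM' P (by simp))
  have key : ∀ m j, j + m = N + 1 → ∀ x, ‖x - P‖ ≤ 1 →
      ‖iteratedFDeriv ℝ j H x‖ ≤ M * ‖x - P‖ ^ m := by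
    intro m
    induction m with
    | zero =>
      intro j hj x hx
      have : j = N + 1 := by omega
      subst this
      simpa using hM' x hx
    | succ m ih =>
      intro j hj x hx
      have hjN : j ≤ N := by omega
      have h1 := (convex_closedBall P ‖x - P‖).norm_image_sub_le_of_norm_fderiv_le
        (𝕜 := ℝ) (f := iteratedFDeriv ℝ j H) (C := M * ‖x - P‖ ^ m) (x := P) (y := x)
        (fun y _ => ((hH.differentiable_iteratedFDeriv (by
          exact_mod_cast WithTop.coe_lt_top _)) y))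
        (fun y hy => by
          rw [Metric.mem_closedBall, dist_eq_norm] at hy
          rw [norm_fderiv_iteratedFDeriv]
          refine (ih (j + 1) (by omega) y (hy.trans hx)).trans ?_
          gcongr)
        (by simp) (by rw [Metric.mem_closedBall, dist_eq_norm])
      rw [hv j hjN, sub_zero] at h1
      rw [pow_succ, ← mul_assoc]
      exact h1
  exact ⟨M, fun x hx j hj => key (N + 1 - j) j (by omega) x hx⟩

/-- (TAY) -/
theorem s_tay : S_tay := by
  intro n N P H hH hv
  exact tay_aux N P H hH hv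

end Pool.Agent.R748.GR
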